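import Mathlib

open Filter Topology

open scoped ENNReal

namespace Pool.Agent.LibA61181

/-- The smallest element of the support of a vector. -/
noncomputable def minSupp (a : ℕ → ℝ) : ℕ := sInf (Function.support a)

/-- For a sequence `A` of vectors: `k 0 = 0` and `k (n + 1) = k n + min supp (A (k n))`. -/
noncomputable def start (A : ℕ → ℕ → ℝ) : ℕ → ℕ
  | 0 => 0
  | n + 1 => start A n + minSupp (A (start A n))

/-- The successor step of the repeated averages: with `s = min supp (A (k n))`, the `n`-th new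
vector is `(1 / s) * ∑ A i`, the sum over the `s` indices `k n ≤ i < k (n + 1) = k n + s`. -/
noncomputable def succStep (A : ℕ → ℕ → ℝ) (n : ℕ) (t : ℕ) : ℝ :=
  (1 / (minSupp (A (start A n)) : ℝ)) * ∑ i ∈ Finset.Ico (start A n) (start A (n + 1)), A i t

/-- The sets `M_j` of the limit step; `B n M` is the sequence of averages of order `ξ_n` on `M`. -/
noncomputable def limitSet (B : ℕ → Set ℕ → ℕ → ℕ → ℝ) (M : Set ℕ) : ℕ → Set ℕ
  | 0 => M
  | j + 1 => limitSet B M j \ Function.support (B (sInf (limitSet B M j)) (limitSet B M j) 0)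

/-- The limit step of the repeated averages: the `j`-th vector is the first vector of the averages
of order `ξ_n` on `M_j`, with `n = min M_j`. -/
noncomputable def limitStep (B : ℕ → Set ℕ → ℕ → ℕ → ℝ) (M : Set ℕ) (j : ℕ) : ℕ → ℝ :=
  B (sInf (limitSet B M j)) (limitSet B M j) 0

/-- The repeated averages `ξ^M_n`, where `c ξ n` is the `n`-th term of the sequence of ordinals
chosen for the limit ordinal `ξ`. Sequences are indexed from `0`, and the sets `M` are infinite
sets of positive integers. -/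
noncomputable def avg (c : Ordinal.{0} → ℕ → Ordinal.{0}) (ξ : Ordinal.{0}) :
    Set ℕ → ℕ → ℕ → ℝ :=
  Ordinal.limitRecOn ξ
    (fun M n => Pi.single (Nat.nth (fun k => k ∈ M) n) 1)
    (fun _ A M => succStep (A M))
    (fun ξ _ A => limitStep (fun n => if h : c ξ n < ξ then A (c ξ n) h else 0))

section quantities

variable {X : Type*} [NormedAddCommGroup X] [NormedSpace ℝ X]

/-- `ca (y) = inf_n sup_{k,l ≥ n} ‖y k - y l‖`. -/
noncomputable def ca (y : ℕ → X) : ℝ≥0∞ :=
  ⨅ n : ℕ, ⨆ k : ℕ, ⨆ l : ℕ, ⨆ _ : n ≤ k, ⨆ _ : n ≤ l, ENNReal.ofReal ‖y k - y l‖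

/-- `cca (x)` is `ca` of the sequence of Cesaro means of `x`. -/
noncomputable def cca (x : ℕ → X) : ℝ≥0∞ :=
  ca fun n => (1 / ((n : ℝ) + 1)) • ∑ i ∈ Finset.range (n + 1), x i

/-- `a · (x_k)`. -/
noncomputable def dot (a : ℕ → ℝ) (x : ℕ → X) : X := ∑ᶠ k, a k • x k

/-- The infimum over all infinite sets of positive integers of `cca (ξ^M_n · (x_k))`. -/
noncomputable def tcca (c : Ordinal.{0} → ℕ → Ordinal.{0}) (ξ : Ordinal.{0}) (x : ℕ → X) :
    ℝ≥0∞ :=
  ⨅ M : Set ℕ, ⨅ _ : M.Infinite, ⨅ _ : 0 ∉ M, cca fun n => dot (avg c ξ M n) x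

/-- Weak convergence of a sequence. -/
def WeaklyConvergent (x : ℕ → X) : Prop :=
  ∃ x₀ : X, ∀ f : StrongDual ℝ X, Tendsto (fun n => f (x n)) atTop (𝓝 (f x₀))

/-- The weak Banach-Saks quantity of order `ξ`. -/
noncomputable def wbs (c : Ordinal.{0} → ℕ → Ordinal.{0}) (ξ : Ordinal.{0}) (A : Set X) :
    ℝ≥0∞ :=
  ⨆ x : ℕ → X, ⨆ _ : ∀ n, x n ∈ A, ⨆ _ : WeaklyConvergent x, tcca c ξ x

end quantities

/-! ### unfolding in order one -/

theorem avg_zero (c : Ordinal.{0} → ℕ → Ordinal.{0}) (M : Set ℕ) (n : ℕ) :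
    avg c 0 M n = Pi.single (Nat.nth (fun k => k ∈ M) n) 1 := by
  rw [avg, Ordinal.limitRecOn_zero]

theorem avg_one (c : Ordinal.{0} → ℕ → Ordinal.{0}) (M : Set ℕ) :
    avg c 1 M = succStep (avg c 0 M) := by
  have h : (1 : Ordinal.{0}) = 0 + 1 := by rw [zero_add]
  rw [h, avg, Ordinal.limitRecOn_add_one]
  rfl

/-- the indices `k_n` in order one -/
def kk (m : ℕ → ℕ) : ℕ → ℕ
  | 0 => 0
  | n + 1 => kk m n + m (kk m n)

theorem minSupp_avg_zero (c : Ordinal.{0} → ℕ → Ordinal.{0}) (M : Set ℕ) (n : ℕ) :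
    minSupp (avg c 0 M n) = Nat.nth (fun k => k ∈ M) n := by
  rw [avg_zero, minSupp]
  have : Function.support (Pi.single (Nat.nth (fun k => k ∈ M) n) (1 : ℝ) : ℕ → ℝ) =
      {Nat.nth (fun k => k ∈ M) n} := by
    ext t
    simp
  rw [this]
  exact csInf_singleton _

theorem start_avg_zero (c : Ordinal.{0} → ℕ → Ordinal.{0}) (M : Set ℕ) (n : ℕ) :
    start (avg c 0 M) n = kk (Nat.nth (fun k => k ∈ M)) n := by
  induction n with
  | zero => rfl
  | succ n ih => rw [start, kk, ih, minSupp_avg_zero]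

theorem dot_avg_one {X : Type*} [NormedAddCommGroup X] [NormedSpace ℝ X]
    (c : Ordinal.{0} → ℕ → Ordinal.{0}) (M : Set ℕ) (x : ℕ → X) (n : ℕ) :
    dot (avg c 1 M n) x =
      (1 / (Nat.nth (fun k => k ∈ M) (kk (Nat.nth (fun k => k ∈ M)) n) : ℝ)) •
        ∑ i ∈ Finset.Ico (kk (Nat.nth (fun k => k ∈ M)) n) (kk (Nat.nth (fun k => k ∈ M)) (n + 1)),
          x (Nat.nth (fun k => k ∈ M) i) := by
  classical
  set m := Nat.nth (fun k => k ∈ M) with hm
  have h1 : ∀ t, avg c 1 M n t = (1 / (m (kk m n) : ℝ)) *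
      ∑ i ∈ Finset.Ico (kk m n) (kk m (n + 1)), (if t = m i then (1 : ℝ) else 0) := by
    intro t
    rw [avg_one, succStep, start_avg_zero, start_avg_zero, minSupp_avg_zero, ← hm]
    congr 1
    apply Finset.sum_congr rfl
    intro i _
    rw [avg_zero, Pi.single_apply]
  rw [dot, finsum_eq_sum_of_support_subset (s := (Finset.Ico (kk m n) (kk m (n + 1))).image m)]
  · simp_rw [h1, mul_smul, ← Finset.smul_sum, Finset.sum_smul]
    rw [Finset.sum_comm]
    congr 1
    apply Finset.sum_congr rfl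
    intro i hi
    simp_rw [ite_smul, one_smul, zero_smul]
    rw [Finset.sum_ite_eq']
    simp only [Finset.mem_image]
    rw [if_pos ⟨i, hi, rfl⟩]
  · intro t ht
    rw [Function.mem_support] at ht
    have : avg c 1 M n t ≠ 0 := fun h => ht (by rw [h, zero_smul])
    rw [h1 t] at this
    have h2 := right_ne_zero_of_mul this
    obtain ⟨i, hi, h3⟩ := Finset.exists_ne_zero_of_sum_ne_zero h2
    have h4 : t = m i := by
      by_contra hne
      exact h3 (if_neg hne)
    rw [Finset.mem_coe, Finset.mem_image]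
    exact ⟨i, hi, h4.symm⟩

end Pool.Agent.LibA61181
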