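import Pool.Agent.Lib_a61181.Upper2

open Filter Topology

open scoped ENNReal

namespace Pool.Agent.LibA61181

theorem strictMono_add_le {m : ℕ → ℕ} (hm : StrictMono m) (a b : ℕ) : m a + b ≤ m (a + b) := by
  induction b with
  | zero => simp
  | succ b ih =>
    have h : m (a + b) < m (a + (b + 1)) := hm (by omega)
    omega

theorem two_pow_le {m : ℕ → ℕ} (hm : StrictMono m) (hm0 : 1 ≤ m 0) (r : ℕ) :
    2 ^ r ≤ m (kk m r) := by
  induction r with
  | zero => simpa [kk] using hm0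
  | succ r ih =>
    have := strictMono_add_le hm (kk m r) (m (kk m r))
    rw [kk_succ, pow_succ]
    omega

/-- the `n`-th block of `M` -/
def Fb (m : ℕ → ℕ) (n : ℕ) : Finset ℕ := (Finset.Ico (kk m n) (kk m (n + 1))).image m

theorem Fb_S1 {m : ℕ → ℕ} (hm : StrictMono m) (n : ℕ) : S1 (Fb m n) := by
  intro a ha
  obtain ⟨i, hi, rfl⟩ := Finset.mem_image.mp ha
  rw [Finset.mem_Ico] at hi
  calc (Fb m n).card ≤ (Finset.Ico (kk m n) (kk m (n + 1))).card := Finset.card_image_le
    _ = m (kk m n) := card_block m n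
    _ ≤ m i := hm.monotone hi.1

theorem Fb_lt {m : ℕ → ℕ} (hm : StrictMono m) {n n' : ℕ} (h : n < n') :
    ∀ a ∈ Fb m n, ∀ b ∈ Fb m n', a < b := by
  intro a ha b hb
  obtain ⟨i, hi, rfl⟩ := Finset.mem_image.mp ha
  obtain ⟨j, hj, rfl⟩ := Finset.mem_image.mp hb
  rw [Finset.mem_Ico] at hi hj
  apply hm
  have : kk m (n + 1) ≤ kk m n' := kk_mono m h
  omega

/-- the union of `s_r` consecutive blocks -/
def Gb (m : ℕ → ℕ) (r : ℕ) : Finset ℕ := (Finset.range (m (kk m r))).biUnion fun l => Fb m (r + l)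

theorem Gb_S2 {m : ℕ → ℕ} (hm : StrictMono m) (r : ℕ) : S2 (Gb m r) := by
  refine ⟨m (kk m r), fun l => Fb m (r + l), fun l _ => Fb_S1 hm _, ?_, ?_, rfl⟩
  · intro l _ l' _ hll
    exact Fb_lt hm (by omega)
  · intro a ha
    obtain ⟨l, -, hl⟩ := Finset.mem_biUnion.mp ha
    obtain ⟨i, hi, rfl⟩ := Finset.mem_image.mp hl
    rw [Finset.mem_Ico] at hi
    apply hm.monotone
    exact (kk_mono m (Nat.le_add_right r l)).trans hi.1

section V

variable {θ : ℝ} {h0 : 0 ≤ θ} {h1 : θ ≤ 1}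

/-- the sum of the first `R` averages of the unit vectors -/
noncomputable def Es (m : ℕ → ℕ) (R : ℕ) : V θ h0 h1 :=
  ∑ n ∈ Finset.range R, (1 / (m (kk m n) : ℝ)) •
    ∑ i ∈ Finset.Ico (kk m n) (kk m (n + 1)), un (m i)

theorem co_Es {m : ℕ → ℕ} (hm : StrictMono m) (hm0 : 1 ≤ m 0) {n j : ℕ}
    (hj : j ∈ Finset.Ico (kk m n) (kk m (n + 1))) (R : ℕ) :
    co (m j) (Es m R : V θ h0 h1) = if n < R then 1 / (m (kk m n) : ℝ) else 0 := by
  have hj1 : 1 ≤ m j := hm0.trans (hm.monotone (Nat.zero_le j))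
  rw [Es, map_sum]
  have e : ∀ n', co (m j) ((1 / (m (kk m n') : ℝ)) •
      ∑ i ∈ Finset.Ico (kk m n') (kk m (n' + 1)), (un (m i) : V θ h0 h1)) =
      if n' = n then 1 / (m (kk m n) : ℝ) else 0 := by
    intro n'
    rw [map_smul, map_sum, smul_eq_mul]
    by_cases hn : n' = n
    · subst hn
      rw [if_pos rfl, Finset.sum_eq_single j]
      · rw [co_un, if_pos ⟨rfl, hj1⟩, mul_one]
      · intro i _ hij
        rw [co_un, if_neg]
        rintro ⟨h, -⟩
        exact hij (hm.injective h).symm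
      · intro h
        exact absurd hj h
    · rw [if_neg hn, Finset.sum_eq_zero, mul_zero]
      intro i hi
      rw [co_un, if_neg]
      rintro ⟨h, -⟩
      have hij := hm.injective h
      subst hij
      rw [Finset.mem_Ico] at hi hj
      rcases lt_or_gt_of_ne hn with h2 | h2
      · have : kk m (n' + 1) ≤ kk m n := kk_mono m h2
        omega
      · have : kk m (n + 1) ≤ kk m n' := kk_mono m h2
        omega
  rw [Finset.sum_congr rfl fun n' _ => e n', Finset.sum_ite_eq']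
  simp only [Finset.mem_range]

theorem lower_bound {m : ℕ → ℕ} (hm : StrictMono m) (hm0 : 1 ≤ m 0) (r : ℕ) :
    θ * ((m (kk m r) : ℝ) / ((r : ℝ) + m (kk m r))) ≤
      ‖(1 / ((r : ℝ) + m (kk m r))) • (Es m (r + m (kk m r)) : V θ h0 h1) -
        (1 / (r : ℝ)) • Es m r‖ := by
  have hpos : ∀ i, (0 : ℝ) < m i := fun i => by
    have : 1 ≤ m i := hm0.trans (hm.monotone (Nat.zero_le i))
    exact_mod_cast this
  refine le_trans ?_ (V.le_norm_S2 _ (Gb_S2 hm r))
  apply mul_le_mul_of_nonneg_left _ h0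
  rw [Gb, Finset.sum_biUnion]
  · have e : ∀ l ∈ Finset.range (m (kk m r)), ∑ t ∈ Fb m (r + l),
        |co t ((1 / ((r : ℝ) + m (kk m r))) • (Es m (r + m (kk m r)) : V θ h0 h1) -
        (1 / (r : ℝ)) • Es m r)| = 1 / ((r : ℝ) + m (kk m r)) := by
      intro l hl
      rw [Finset.mem_range] at hl
      rw [Fb, Finset.sum_image (fun a _ b _ h => hm.injective h)]
      have e2 : ∀ i ∈ Finset.Ico (kk m (r + l)) (kk m (r + l + 1)),
          |co (m i) ((1 / ((r : ℝ) + m (kk m r))) • (Es m (r + m (kk m r)) : V θ h0 h1) -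
          (1 / (r : ℝ)) • Es m r)| =
          1 / ((r : ℝ) + m (kk m r)) * (1 / (m (kk m (r + l)) : ℝ)) := by
        intro i hi
        rw [map_sub, map_smul, map_smul, co_Es hm hm0 hi, co_Es hm hm0 hi, if_pos (by omega),
          if_neg (by omega), smul_zero, sub_zero, smul_eq_mul, abs_of_nonneg]
        have := hpos (kk m (r + l))
        have := hpos (kk m r)
        positivity
      rw [Finset.sum_congr rfl e2, Finset.sum_const, card_block, nsmul_eq_mul]
      have := (hpos (kk m (r + l))).ne'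
      field_simp
    rw [Finset.sum_congr rfl e, Finset.sum_const, Finset.card_range, nsmul_eq_mul, mul_one_div]
  · intro l _ l' _ hll
    rw [Function.onFun, Finset.disjoint_left]
    intro a ha ha'
    rcases lt_or_gt_of_ne hll with h | h
    · exact lt_irrefl _ (Fb_lt hm (show r + l < r + l' by omega) a ha a ha')
    · exact lt_irrefl _ (Fb_lt hm (show r + l' < r + l by omega) a ha' a ha)

theorem norm_un_le (n : ℕ) : ‖(un n : V θ h0 h1)‖ ≤ 1 := by
  apply V.norm_le zero_le_one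
  · intro F _
    have : ∑ t ∈ F, |co t (un n : V θ h0 h1)| ≤ ∑ t ∈ {n}, |co t (un n : V θ h0 h1)| := by
      apply sum_le_total (fun _ => abs_nonneg _)
      intro t ht
      rw [Finset.mem_singleton] at ht
      rw [co_un, if_neg (fun h => ht h.1), abs_zero]
    refine this.trans ?_
    rw [Finset.sum_singleton, co_un]
    split_ifs <;> simp
  · intro F _
    have h2 : ∑ t ∈ F, |co t (un n : V θ h0 h1)| ≤ ∑ t ∈ {n}, |co t (un n : V θ h0 h1)| := by
      apply sum_le_total (fun _ => abs_nonneg _)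
      intro t ht
      rw [Finset.mem_singleton] at ht
      rw [co_un, if_neg (fun h => ht h.1), abs_zero]
    have h3 : ∑ t ∈ {n}, |co t (un n : V θ h0 h1)| ≤ 1 := by
      rw [Finset.sum_singleton, co_un]
      split_ifs <;> simp
    exact mul_le_one₀ h1 (Finset.sum_nonneg fun _ _ => abs_nonneg _) (h2.trans h3)

theorem le_wbs (c : Ordinal.{0} → ℕ → Ordinal.{0}) :
    ENNReal.ofReal θ ≤ wbs c 1 (Metric.closedBall (0 : V θ h0 h1) 1) := by
  refine le_trans ?_ (le_iSup _ (fun n => (un n : V θ h0 h1)))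
  refine le_trans ?_ (le_iSup _ (fun n => by
    rw [mem_closedBall_zero_iff]
    exact norm_un_le n))
  refine le_trans ?_ (le_iSup _ ⟨0, fun f => by
    rw [map_zero]
    exact tendsto_un f⟩)
  refine le_iInf fun M => le_iInf fun hM => le_iInf fun hM0 => ?_
  obtain ⟨m, hmdef⟩ : ∃ m, m = Nat.nth (fun k => k ∈ M) := ⟨_, rfl⟩
  have hm : StrictMono m := by
    rw [hmdef]
    exact Nat.nth_strictMono hM
  have hm0 : 1 ≤ m 0 := by
    have h2 : m 0 ∈ M := by
      rw [hmdef]
      exact Nat.nth_mem_of_infinite hM 0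
    by_contra hcon
    have : m 0 = 0 := by omega
    exact hM0 (this ▸ h2)
  rw [cca]
  simp_rw [dot_avg_one, ← hmdef]
  refine le_iInf fun n => ?_
  have key : ∀ r : ℕ, n + 1 ≤ r → ENNReal.ofReal (θ * (1 - (r : ℝ) / 2 ^ r)) ≤
      ⨆ k : ℕ, ⨆ l : ℕ, ⨆ _ : n ≤ k, ⨆ _ : n ≤ l, ENNReal.ofReal
        ‖(1 / ((k : ℝ) + 1)) • (Es m (k + 1) : V θ h0 h1) -
          (1 / ((l : ℝ) + 1)) • Es m (l + 1)‖ := by
    intro r hr
    have hs1 : 1 ≤ m (kk m r) := hm0.trans (hm.monotone (Nat.zero_le _))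
    refine le_trans ?_ (le_iSup _ (r + m (kk m r) - 1))
    refine le_trans ?_ (le_iSup _ (r - 1))
    refine le_trans ?_ (le_iSup _ (by omega))
    refine le_trans ?_ (le_iSup _ (by omega))
    apply ENNReal.ofReal_le_ofReal
    have e1 : r + m (kk m r) - 1 + 1 = r + m (kk m r) := by omega
    have e2 : r - 1 + 1 = r := by omega
    have e3 : ((r + m (kk m r) - 1 : ℕ) : ℝ) + 1 = (r : ℝ) + m (kk m r) := by
      have : ((r + m (kk m r) - 1 + 1 : ℕ) : ℝ) = ((r + m (kk m r) : ℕ) : ℝ) := by rw [e1]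
      push_cast at this ⊢
      exact this
    have e4 : ((r - 1 : ℕ) : ℝ) + 1 = (r : ℝ) := by
      have : ((r - 1 + 1 : ℕ) : ℝ) = ((r : ℕ) : ℝ) := by rw [e2]
      push_cast at this ⊢
      exact this
    rw [e1, e2, e3, e4]
    refine le_trans ?_ (lower_bound hm hm0 r)
    apply mul_le_mul_of_nonneg_left _ h0
    have hp : (2 : ℝ) ^ r ≤ m (kk m r) := by exact_mod_cast two_pow_le hm hm0 r
    have hp0 : (0 : ℝ) < 2 ^ r := by positivity
    have hs0 : (0 : ℝ) < m (kk m r) := hp0.trans_le hp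
    have hr0 : (0 : ℝ) ≤ r := by positivity
    rw [le_div_iff₀ (by positivity)]
    have h3 : (r : ℝ) / m (kk m r) ≤ r / 2 ^ r := div_le_div_of_nonneg_left hr0 hp0 hp
    have h4 : (1 - (r : ℝ) / 2 ^ r) * (r + m (kk m r)) ≤
        (1 - (r : ℝ) / m (kk m r)) * (r + m (kk m r)) := by
      apply mul_le_mul_of_nonneg_right _ (by positivity)
      linarith
    refine h4.trans ?_
    have h5 : (1 - (r : ℝ) / m (kk m r)) * (r + m (kk m r)) =
        m (kk m r) - (r : ℝ) ^ 2 / m (kk m r) := by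
      field_simp
      ring
    rw [h5]
    have : (0 : ℝ) ≤ (r : ℝ) ^ 2 / m (kk m r) := by positivity
    linarith
  have hlim : Tendsto (fun r : ℕ => ENNReal.ofReal (θ * (1 - (r : ℝ) / 2 ^ r))) atTop
      (𝓝 (ENNReal.ofReal θ)) := by
    apply ENNReal.tendsto_ofReal
    have h3 : Tendsto (fun r : ℕ => (r : ℝ) / 2 ^ r) atTop (𝓝 0) := by
      have := tendsto_self_mul_const_pow_of_lt_one (r := (1 / 2 : ℝ)) (by norm_num) (by norm_num)
      refine this.congr fun r => ?_
      rw [one_div, inv_pow, div_eq_mul_inv]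
    have h4 := ((h3.const_sub 1).const_mul θ)
    rw [sub_zero, mul_one] at h4
    exact h4
  exact le_of_tendsto hlim (eventually_atTop.mpr ⟨n + 1, key⟩)

end V

end Pool.Agent.LibA61181
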