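import Pool.Agent.Lib_a61181.Defs

open Filter Topology

open scoped ENNReal

namespace Pool.Agent.LibA61181

/-- the first Schreier family -/
def S1 (F : Finset ℕ) : Prop := ∀ a ∈ F, F.card ≤ a

/-- the second Schreier family -/
def S2 (G : Finset ℕ) : Prop := ∃ (q : ℕ) (F : ℕ → Finset ℕ), (∀ l < q, S1 (F l)) ∧
  (∀ l < q, ∀ l' < q, l < l' → ∀ a ∈ F l, ∀ b ∈ F l', a < b) ∧ (∀ a ∈ G, q ≤ a) ∧
  G = (Finset.range q).biUnion F

theorem S1.pos {F : Finset ℕ} (h : S1 F) {a : ℕ} (ha : a ∈ F) : 1 ≤ a :=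
  (Finset.card_pos.mpr ⟨a, ha⟩).trans_le (h a ha)

theorem S2.pos {G : Finset ℕ} (h : S2 G) {a : ℕ} (ha : a ∈ G) : 1 ≤ a := by
  obtain ⟨q, F, h1, -, -, rfl⟩ := h
  obtain ⟨l, hl, hal⟩ := Finset.mem_biUnion.mp ha
  exact (h1 l (Finset.mem_range.mp hl)).pos hal

/-- index set of the norming functionals -/
structure Idx where
  b : Bool
  F : Finset ℕ
  σ : ℕ → ℝ
  adm1 : b = false → S1 F
  adm2 : b = true → S2 F
  hσ : ∀ t, |σ t| ≤ 1

theorem Idx.pos (q : Idx) {a : ℕ} (ha : a ∈ q.F) : 1 ≤ a := by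
  cases h : q.b
  · exact (q.adm1 h).pos ha
  · exact (q.adm2 h).pos ha

/-- the weight -/
def wt (θ : ℝ) : Bool → ℝ
  | false => 1
  | true => θ

abbrev Amb := lp (fun _ : Idx => ℝ) ∞

/-- multiply the signs of an index by a multiplier -/
def Idx.mul (q : Idx) (τ : ℕ → ℝ) (hτ : ∀ t, |τ t| ≤ 1) : Idx where
  b := q.b
  F := q.F
  σ := fun t => q.σ t * τ t
  adm1 := q.adm1
  adm2 := q.adm2
  hσ := fun t => by
    rw [abs_mul]
    exact mul_le_one₀ (q.hσ t) (abs_nonneg _) (hτ t)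

/-- the multiplier operator -/
noncomputable def mulOp (τ : ℕ → ℝ) (hτ : ∀ t, |τ t| ≤ 1) : Amb →L[ℝ] Amb :=
  LinearMap.mkContinuous
    { toFun := fun x => ⟨fun q => x (q.mul τ hτ), memℓp_infty ⟨‖x‖, by
        rintro _ ⟨q, rfl⟩
        exact lp.norm_apply_le_norm (by simp) x _⟩⟩
      map_add' := fun x y => rfl
      map_smul' := fun c x => rfl } 1 (fun x => by
        rw [one_mul]
        exact lp.norm_le_of_forall_le (norm_nonneg _) fun q =>
          lp.norm_apply_le_norm (by simp) x _)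

theorem mulOp_apply (τ : ℕ → ℝ) (hτ : ∀ t, |τ t| ≤ 1) (x : Amb) (q : Idx) :
    mulOp τ hτ x q = x (q.mul τ hτ) := rfl

theorem norm_mulOp_le (τ : ℕ → ℝ) (hτ : ∀ t, |τ t| ≤ 1) (x : Amb) : ‖mulOp τ hτ x‖ ≤ ‖x‖ :=
  lp.norm_le_of_forall_le (norm_nonneg _) fun q => lp.norm_apply_le_norm (by simp) x _

/-- evaluation -/
noncomputable def evalOp (q : Idx) : Amb →L[ℝ] ℝ :=
  LinearMap.mkContinuous
    { toFun := fun x => x q
      map_add' := fun x y => rfl
      map_smul' := fun c x => rfl } 1 (fun x => by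
        rw [one_mul]
        exact lp.norm_apply_le_norm (by simp) x _)

theorem evalOp_apply (q : Idx) (x : Amb) : evalOp q x = x q := rfl

theorem wt_nonneg {θ : ℝ} (h : 0 ≤ θ) (b : Bool) : 0 ≤ wt θ b := by
  cases b
  · exact zero_le_one
  · exact h

theorem wt_le_one {θ : ℝ} (h : θ ≤ 1) (b : Bool) : wt θ b ≤ 1 := by
  cases b
  · exact le_rfl
  · exact h

/-- the unit vectors -/
noncomputable def uv (θ : ℝ) (h0 : 0 ≤ θ) (h1 : θ ≤ 1) (n : ℕ) : Amb :=
  ⟨fun q => wt θ q.b * (if n ∈ q.F then q.σ n else 0), memℓp_infty ⟨1, by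
    rintro _ ⟨q, rfl⟩
    change ‖wt θ q.b * (if n ∈ q.F then q.σ n else 0)‖ ≤ 1
    rw [norm_mul]
    apply mul_le_one₀
    · rw [Real.norm_of_nonneg (wt_nonneg h0 _)]
      exact wt_le_one h1 _
    · exact norm_nonneg _
    · split_ifs
      · exact q.hσ n
      · simp⟩⟩

theorem uv_apply (θ : ℝ) (h0 : 0 ≤ θ) (h1 : θ ≤ 1) (n : ℕ) (q : Idx) :
    uv θ h0 h1 n q = wt θ q.b * (if n ∈ q.F then q.σ n else 0) := rfl

/-- coordinate index -/
def cidx (t : ℕ) : Idx where
  b := false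
  F := if 1 ≤ t then {t} else ∅
  σ := fun _ => 1
  adm1 := fun _ => by
    split_ifs with h
    · intro a ha
      rw [Finset.mem_singleton] at ha
      rw [ha, Finset.card_singleton]
      exact h
    · intro a ha
      simp at ha
  adm2 := fun h => by simp at h
  hσ := fun _ => by simp

section V

variable (θ : ℝ) (h0 : 0 ≤ θ) (h1 : θ ≤ 1)

/-- the space -/
noncomputable def V : Submodule ℝ Amb :=
  (Submodule.span ℝ (Set.range (uv θ h0 h1))).topologicalClosure

noncomputable instance : CompleteSpace (V θ h0 h1) :=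
  (Submodule.isClosed_topologicalClosure _).completeSpace_coe

variable {θ h0 h1}

/-- unit vectors in the space -/
noncomputable def un (n : ℕ) : V θ h0 h1 :=
  ⟨uv θ h0 h1 n, Submodule.le_topologicalClosure _ (Submodule.subset_span ⟨n, rfl⟩)⟩

/-- induction principle: a closed linear condition -/
theorem V.induct {p : Amb → Prop} (hcl : IsClosed {x | p x}) (hu : ∀ n, p (uv θ h0 h1 n))
    (hz : p 0) (hadd : ∀ x y, p x → p y → p (x + y)) (hsmul : ∀ (c : ℝ) x, p x → p (c • x))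
    (x : V θ h0 h1) : p x := by
  have hsub : ((Submodule.span ℝ (Set.range (uv θ h0 h1)) : Submodule ℝ Amb) : Set Amb) ⊆
      {x | p x} := by
    intro y hy
    refine Submodule.span_induction ?_ hz (fun a b _ _ ha hb => hadd a b ha hb)
      (fun c a _ ha => hsmul c a ha) hy
    rintro _ ⟨n, rfl⟩
    exact hu n
  exact closure_minimal hsub hcl x.2

/-- coordinates -/
noncomputable def co (t : ℕ) : V θ h0 h1 →L[ℝ] ℝ := (evalOp (cidx t)).comp (V θ h0 h1).subtypeL

theorem co_un (t n : ℕ) : co t (un n : V θ h0 h1) = if t = n ∧ 1 ≤ t then 1 else 0 := by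
  change wt θ (cidx t).b * (if n ∈ (cidx t).F then (cidx t).σ n else 0) = _
  have h2 : wt θ (cidx t).b = 1 := rfl
  rw [h2, one_mul]
  have h3 : (cidx t).F = if 1 ≤ t then {t} else ∅ := rfl
  have h4 : (cidx t).σ n = 1 := rfl
  rw [h3, h4]
  by_cases ht : 1 ≤ t
  · simp only [ht, if_true, Finset.mem_singleton, and_true]
    by_cases hn : n = t
    · simp [hn]
    · rw [if_neg hn, if_neg (fun h => hn h.symm)]
  · simp [ht]

/-- the value at an index in terms of the coordinates -/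
theorem V.apply_eq (x : V θ h0 h1) (q : Idx) :
    (x : Amb) q = wt θ q.b * ∑ t ∈ q.F, q.σ t * co t x := by
  have key : ∀ x : V θ h0 h1, (x : Amb) q = wt θ q.b * ∑ t ∈ q.F, q.σ t * (x : Amb) (cidx t) := by
    intro x
    refine V.induct (p := fun y : Amb => y q = wt θ q.b * ∑ t ∈ q.F, q.σ t * y (cidx t))
      ?_ ?_ ?_ ?_ ?_ x
    · have e : {y : Amb | y q = wt θ q.b * ∑ t ∈ q.F, q.σ t * y (cidx t)} =
          {y : Amb | evalOp q y = wt θ q.b * ∑ t ∈ q.F, q.σ t * evalOp (cidx t) y} := rfl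
      rw [e]
      exact isClosed_eq (by fun_prop) (by fun_prop)
    · intro n
      rw [uv_apply]
      congr 1
      by_cases hn : n ∈ q.F
      · rw [if_pos hn, Finset.sum_eq_single n]
        · have : uv θ h0 h1 n (cidx n) = 1 := by
            have := co_un (θ := θ) (h0 := h0) (h1 := h1) n n
            rw [if_pos ⟨rfl, q.pos hn⟩] at this
            exact this
          rw [this, mul_one]
        · intro t _ htn
          have : uv θ h0 h1 n (cidx t) = 0 := by
            have := co_un (θ := θ) (h0 := h0) (h1 := h1) t n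
            rw [if_neg (fun h : t = n ∧ 1 ≤ t => htn h.1)] at this
            exact this
          rw [this, mul_zero]
        · intro h
          exact absurd hn h
      · rw [if_neg hn, Finset.sum_eq_zero]
        intro t ht
        have : uv θ h0 h1 n (cidx t) = 0 := by
          have := co_un (θ := θ) (h0 := h0) (h1 := h1) t n
          rw [if_neg (fun h : t = n ∧ 1 ≤ t => hn (h.1 ▸ ht))] at this
          exact this
        rw [this, mul_zero]
    · simp
    · intro a b ha hb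
      rw [lp.coeFn_add, Pi.add_apply, ha, hb, ← mul_add, ← Finset.sum_add_distrib]
      congr 1
      apply Finset.sum_congr rfl
      intro t _
      rw [Pi.add_apply, mul_add]
    · intro c a ha
      rw [lp.coeFn_smul, Pi.smul_apply, ha, smul_eq_mul, mul_left_comm, Finset.mul_sum]
      congr 1
      apply Finset.sum_congr rfl
      intro t _
      rw [Pi.smul_apply, smul_eq_mul]
      ring
  exact key x

theorem V.norm_le {x : V θ h0 h1} {C : ℝ} (hC : 0 ≤ C)
    (hS1 : ∀ F, S1 F → ∑ t ∈ F, |co t x| ≤ C) (hS2 : ∀ G, S2 G → θ * ∑ t ∈ G, |co t x| ≤ C) :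
    ‖x‖ ≤ C := by
  refine lp.norm_le_of_forall_le hC fun q => ?_
  change ‖(x : Amb) q‖ ≤ C
  rw [V.apply_eq, norm_mul, Real.norm_of_nonneg (wt_nonneg h0 _)]
  have e1 : ‖∑ t ∈ q.F, q.σ t * co t x‖ ≤ ∑ t ∈ q.F, |co t x| := by
    refine (norm_sum_le _ _).trans (Finset.sum_le_sum fun t _ => ?_)
    rw [norm_mul]
    exact mul_le_of_le_one_left (norm_nonneg _) (q.hσ t)
  cases hb : q.b
  · rw [wt, one_mul]
    exact e1.trans (hS1 _ (q.adm1 hb))
  · rw [wt]
    exact (mul_le_mul_of_nonneg_left e1 h0).trans (hS2 _ (q.adm2 hb))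

theorem V.le_norm_S1 (x : V θ h0 h1) {F : Finset ℕ} (hF : S1 F) : ∑ t ∈ F, |co t x| ≤ ‖x‖ := by
  let q : Idx := ⟨false, F, fun t => SignType.sign (co t x), fun _ => hF,
    fun h => by simp at h, fun t => by
      rcases SignType.trichotomy (SignType.sign (co t x)) with h | h | h <;> simp [h]⟩
  have h2 := lp.norm_apply_le_norm (by simp) (x : Amb) q
  rw [V.apply_eq] at h2
  have h3 : wt θ q.b * ∑ t ∈ q.F, q.σ t * co t x = ∑ t ∈ F, |co t x| := by
    change 1 * ∑ t ∈ F, (SignType.sign (co t x) : ℝ) * co t x = _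
    rw [one_mul]
    apply Finset.sum_congr rfl
    intro t _
    exact sign_mul_self _
  rw [h3, Real.norm_of_nonneg (Finset.sum_nonneg fun _ _ => abs_nonneg _)] at h2
  exact h2

theorem V.le_norm_S2 (x : V θ h0 h1) {G : Finset ℕ} (hG : S2 G) :
    θ * ∑ t ∈ G, |co t x| ≤ ‖x‖ := by
  let q : Idx := ⟨true, G, fun t => SignType.sign (co t x), fun h => by simp at h,
    fun _ => hG, fun t => by
      rcases SignType.trichotomy (SignType.sign (co t x)) with h | h | h <;> simp [h]⟩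
  have h2 := lp.norm_apply_le_norm (by simp) (x : Amb) q
  rw [V.apply_eq] at h2
  have h3 : wt θ q.b * ∑ t ∈ q.F, q.σ t * co t x = θ * ∑ t ∈ G, |co t x| := by
    change θ * ∑ t ∈ G, (SignType.sign (co t x) : ℝ) * co t x = _
    congr 1
    apply Finset.sum_congr rfl
    intro t _
    exact sign_mul_self _
  rw [h3, Real.norm_of_nonneg (mul_nonneg h0 (Finset.sum_nonneg fun _ _ => abs_nonneg _))] at h2
  exact h2

/-- multiplier operators on the space -/
noncomputable def mulV (τ : ℕ → ℝ) (hτ : ∀ t, |τ t| ≤ 1) : V θ h0 h1 →L[ℝ] V θ h0 h1 :=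
  ((mulOp τ hτ).comp (V θ h0 h1).subtypeL).codRestrict (V θ h0 h1) (by
    intro x
    refine V.induct (p := fun y : Amb => mulOp τ hτ y ∈ V θ h0 h1) ?_ ?_ ?_ ?_ ?_ x
    · have : {y : Amb | mulOp τ hτ y ∈ V θ h0 h1} = mulOp τ hτ ⁻¹' (V θ h0 h1 : Set Amb) := rfl
      rw [this]
      exact (Submodule.isClosed_topologicalClosure _).preimage (mulOp τ hτ).continuous
    · intro n
      have : mulOp τ hτ (uv θ h0 h1 n) = τ n • uv θ h0 h1 n := by
        ext q
        rw [mulOp_apply, lp.coeFn_smul, Pi.smul_apply, uv_apply, uv_apply, smul_eq_mul]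
        change wt θ q.b * (if n ∈ q.F then q.σ n * τ n else 0) = _
        split_ifs
        · ring
        · ring
      rw [this]
      exact Submodule.smul_mem _ _ (un n : V θ h0 h1).2
    · rw [map_zero]
      exact Submodule.zero_mem _
    · intro a b ha hb
      rw [map_add]
      exact Submodule.add_mem _ ha hb
    · intro c a ha
      rw [map_smul]
      exact Submodule.smul_mem _ _ ha)

theorem norm_mulV_le (τ : ℕ → ℝ) (hτ : ∀ t, |τ t| ≤ 1) (x : V θ h0 h1) :
    ‖mulV τ hτ x‖ ≤ ‖x‖ := norm_mulOp_le τ hτ x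

theorem co_mulV (τ : ℕ → ℝ) (hτ : ∀ t, |τ t| ≤ 1) (x : V θ h0 h1) (t : ℕ) :
    co t (mulV τ hτ x) = τ t * co t x := by
  change (x : Amb) ((cidx t).mul τ hτ) = τ t * (x : Amb) (cidx t)
  rw [V.apply_eq, V.apply_eq x (cidx t)]
  change 1 * ∑ s ∈ (if 1 ≤ t then {t} else ∅), 1 * τ s * co s x =
    τ t * (1 * ∑ s ∈ (if 1 ≤ t then {t} else ∅), 1 * co s x)
  split_ifs <;> simp

end V

end Pool.Agent.LibA61181
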