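import Pool.Agent.Lib_a61181.WeakNull

open Filter Topology

open scoped ENNReal

namespace Pool.Agent.LibA61181

theorem kk_succ (m : ℕ → ℕ) (n : ℕ) : kk m (n + 1) = kk m n + m (kk m n) := rfl

theorem kk_le_succ (m : ℕ → ℕ) (n : ℕ) : kk m n ≤ kk m (n + 1) := by
  rw [kk_succ]
  exact Nat.le_add_right _ _

theorem kk_mono (m : ℕ → ℕ) : Monotone (kk m) := monotone_nat_of_le_succ (kk_le_succ m)

theorem card_block (m : ℕ → ℕ) (n : ℕ) :
    (Finset.Ico (kk m n) (kk m (n + 1))).card = m (kk m n) := by
  rw [Nat.card_Ico, kk_succ, Nat.add_sub_cancel_left]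

theorem count_bound {m p : ℕ → ℕ} (hm : Monotone m) (hm0 : 1 ≤ m 0) (hp : Monotone p)
    (hpm : ∀ i, p i ≤ m i) {g : ℕ → ℝ} {K : ℕ} {bad : Finset ℕ} (hbad : bad.card ≤ K) {c C : ℝ}
    (hc : 0 ≤ c) (hC : 0 ≤ C) (hg : ∀ i, g i ≤ c + if i ∈ bad then C else 0)
    (hg0 : ∀ i, p (i + 1) < K → g i ≤ 0) (N : ℕ) :
    ∑ n ∈ Finset.range N, (1 / (m (kk m n) : ℝ)) *
      ∑ i ∈ Finset.Ico (kk m n) (kk m (n + 1)), g i ≤ c * N + 2 * C := by
  have hpos : ∀ i, (0 : ℝ) < m i := fun i => by
    have : 1 ≤ m i := hm0.trans (hm (Nat.zero_le i))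
    exact_mod_cast this
  -- per block bound
  set B : ℕ → ℕ := fun n => ((Finset.Ico (kk m n) (kk m (n + 1))).filter (· ∈ bad)).card with hB
  have hblock : ∀ n, (1 / (m (kk m n) : ℝ)) * ∑ i ∈ Finset.Ico (kk m n) (kk m (n + 1)), g i ≤
      c + C * (B n : ℝ) / m (kk m n) := by
    intro n
    have h1 : ∑ i ∈ Finset.Ico (kk m n) (kk m (n + 1)), g i ≤ m (kk m n) * c + C * B n := by
      calc ∑ i ∈ Finset.Ico (kk m n) (kk m (n + 1)), g i
          ≤ ∑ i ∈ Finset.Ico (kk m n) (kk m (n + 1)), (c + if i ∈ bad then C else 0) :=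
            Finset.sum_le_sum fun i _ => hg i
        _ = m (kk m n) * c + C * B n := by
            rw [Finset.sum_add_distrib, Finset.sum_const, card_block, nsmul_eq_mul,
              ← Finset.sum_filter, Finset.sum_const, nsmul_eq_mul]
            ring
    rw [one_div, inv_mul_le_iff₀ (hpos _)]
    have : (m (kk m n) : ℝ) * (c + C * (B n : ℝ) / m (kk m n)) = m (kk m n) * c + C * B n := by
      have := (hpos (kk m n)).ne'
      field_simp
    rw [this]
    exact h1
  have hbound : ∀ n, (1 / (m (kk m n) : ℝ)) * ∑ i ∈ Finset.Ico (kk m n) (kk m (n + 1)), g i ≤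
      c + C * (if m (kk m n) < K ∧ K ≤ m (kk m (n + 1)) then 1 else 0) + C * ((B n : ℝ) / K) := by
    intro n
    by_cases h1 : m (kk m (n + 1)) < K
    · have h2 : ∑ i ∈ Finset.Ico (kk m n) (kk m (n + 1)), g i ≤ 0 := by
        apply Finset.sum_nonpos
        intro i hi
        apply hg0
        rw [Finset.mem_Ico] at hi
        calc p (i + 1) ≤ p (kk m (n + 1)) := hp hi.2
          _ ≤ m (kk m (n + 1)) := hpm _
          _ < K := h1
      have h3 : (1 / (m (kk m n) : ℝ)) * ∑ i ∈ Finset.Ico (kk m n) (kk m (n + 1)), g i ≤ 0 :=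
        mul_nonpos_of_nonneg_of_nonpos (by have := hpos (kk m n); positivity) h2
      refine h3.trans ?_
      have : (0 : ℝ) ≤ (B n : ℝ) / K := by positivity
      positivity
    · push Not at h1
      by_cases h2 : m (kk m n) < K
      · rw [if_pos ⟨h2, h1⟩, mul_one]
        refine (hblock n).trans ?_
        have h3 : (B n : ℝ) ≤ m (kk m n) := by
          have : B n ≤ m (kk m n) := by
            rw [hB, ← card_block m n]
            exact Finset.card_filter_le _ _
          exact_mod_cast this
        have h4 : C * (B n : ℝ) / m (kk m n) ≤ C := by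
          rw [mul_div_assoc]
          apply mul_le_of_le_one_right hC
          exact div_le_one_of_le₀ h3 (hpos _).le
        have : (0 : ℝ) ≤ C * ((B n : ℝ) / K) := by positivity
        linarith
      · push Not at h2
        refine (hblock n).trans ?_
        rw [mul_div_assoc]
        have h3 : C * ((B n : ℝ) / m (kk m n)) ≤ C * ((B n : ℝ) / K) := by
          by_cases hK : K = 0
          · have hb0 : bad = ∅ := by
              rw [← Finset.card_eq_zero]
              omega
            have : B n = 0 := by
              rw [hB]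
              simp [hb0]
            rw [this]
            simp
          · apply mul_le_mul_of_nonneg_left _ hC
            apply div_le_div_of_nonneg_left (by positivity)
            · have : 0 < K := Nat.pos_of_ne_zero hK
              exact_mod_cast this
            · exact_mod_cast h2
        split_ifs <;> linarith
  refine (Finset.sum_le_sum fun n _ => hbound n).trans ?_
  rw [Finset.sum_add_distrib, Finset.sum_add_distrib, Finset.sum_const, Finset.card_range,
    nsmul_eq_mul, ← Finset.mul_sum, ← Finset.mul_sum, ← Finset.sum_div]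
  have k1 : ∑ n ∈ Finset.range N,
      (if m (kk m n) < K ∧ K ≤ m (kk m (n + 1)) then (1 : ℝ) else 0) ≤ 1 := by
    rw [← Finset.sum_filter, Finset.sum_const, nsmul_eq_mul, mul_one]
    have : ((Finset.range N).filter fun n => m (kk m n) < K ∧ K ≤ m (kk m (n + 1))).card ≤ 1 := by
      rw [Finset.card_le_one]
      intro a ha b hb
      rw [Finset.mem_filter] at ha hb
      by_contra hne
      rcases lt_or_gt_of_ne hne with h | h
      · have : m (kk m (a + 1)) ≤ m (kk m b) := hm (kk_mono m h)
        omega
      · have : m (kk m (b + 1)) ≤ m (kk m a) := hm (kk_mono m h)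
        omega
    exact_mod_cast this
  have k2 : ∑ n ∈ Finset.range N, (B n : ℝ) ≤ K := by
    have h1 : ∑ n ∈ Finset.range N, B n ≤ bad.card := by
      rw [hB]
      rw [← Finset.card_biUnion]
      · apply Finset.card_le_card
        intro i hi
        obtain ⟨n, -, hn⟩ := Finset.mem_biUnion.mp hi
        exact (Finset.mem_filter.mp hn).2
      · intro a _ b _ hab
        rw [Function.onFun, Finset.disjoint_left]
        intro i hia hib
        have h1 := Finset.mem_Ico.mp (Finset.mem_filter.mp hia).1
        have h2 := Finset.mem_Ico.mp (Finset.mem_filter.mp hib).1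
        rcases lt_or_gt_of_ne hab with h | h
        · have : kk m (a + 1) ≤ kk m b := kk_mono m h
          omega
        · have : kk m (b + 1) ≤ kk m a := kk_mono m h
          omega
    have h2 : ∑ n ∈ Finset.range N, B n ≤ K := h1.trans hbad
    exact_mod_cast h2
  have k3 : (∑ n ∈ Finset.range N, (B n : ℝ)) / K ≤ 1 := div_le_one_of_le₀ k2 (by positivity)
  have k4 := mul_le_mul_of_nonneg_left k1 hC
  have k5 := mul_le_mul_of_nonneg_left k3 hC
  linarith

/-- the index of the block containing `t` -/
noncomputable def bidx (p : ℕ → ℕ) (t : ℕ) : ℕ := sInf {i | t ≤ p (i + 1)}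

theorem bidx_eq {p : ℕ → ℕ} (hp : Monotone p) {i t : ℕ} (h1 : p i < t) (h2 : t ≤ p (i + 1)) :
    bidx p t = i := by
  apply le_antisymm
  · exact Nat.sInf_le h2
  · have hne : {i | t ≤ p (i + 1)}.Nonempty := ⟨i, h2⟩
    have hmem := Nat.sInf_mem hne
    change t ≤ p (bidx p t + 1) at hmem
    by_contra hlt
    push Not at hlt
    have : p (bidx p t + 1) ≤ p i := hp hlt
    omega

section V

variable {θ : ℝ} {h0 : 0 ≤ θ} {h1 : θ ≤ 1}

/-- The core estimate. -/
theorem block_bound (hθ : 0 < θ) {m p : ℕ → ℕ} (hm : Monotone m) (hm0 : 1 ≤ m 0)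
    (hp : Monotone p) (hpm : ∀ i, p i ≤ m i) (b : ℕ → V θ h0 h1) (hb : ∀ i, ‖b i‖ ≤ 1)
    (hsupp : ∀ i t, co t (b i) ≠ 0 → p i < t ∧ t ≤ p (i + 1)) (N : ℕ) :
    ‖∑ n ∈ Finset.range N, (1 / (m (kk m n) : ℝ)) •
      ∑ i ∈ Finset.Ico (kk m n) (kk m (n + 1)), b i‖ ≤ θ * N + 2 := by
  have htri : ∀ G : Finset ℕ, ∑ t ∈ G, |co t (∑ n ∈ Finset.range N, (1 / (m (kk m n) : ℝ)) •
      ∑ i ∈ Finset.Ico (kk m n) (kk m (n + 1)), b i)| ≤
      ∑ n ∈ Finset.range N, (1 / (m (kk m n) : ℝ)) *
        ∑ i ∈ Finset.Ico (kk m n) (kk m (n + 1)), ∑ t ∈ G, |co t (b i)| := by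
    intro G
    have e1 : ∀ t, |co t (∑ n ∈ Finset.range N, (1 / (m (kk m n) : ℝ)) •
        ∑ i ∈ Finset.Ico (kk m n) (kk m (n + 1)), b i)| ≤
        ∑ n ∈ Finset.range N, (1 / (m (kk m n) : ℝ)) *
        ∑ i ∈ Finset.Ico (kk m n) (kk m (n + 1)), |co t (b i)| := by
      intro t
      rw [map_sum]
      refine (Finset.abs_sum_le_sum_abs _ _).trans (Finset.sum_le_sum fun n _ => ?_)
      rw [map_smul, map_sum, smul_eq_mul, abs_mul, abs_of_nonneg (by positivity)]
      exact mul_le_mul_of_nonneg_left (Finset.abs_sum_le_sum_abs _ _) (by positivity)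
    refine (Finset.sum_le_sum fun t _ => e1 t).trans (le_of_eq ?_)
    rw [Finset.sum_comm]
    apply Finset.sum_congr rfl
    intro n _
    rw [← Finset.mul_sum, Finset.sum_comm]
  apply V.norm_le (by positivity)
  · intro F hF
    refine (htri F).trans ?_
    rcases F.eq_empty_or_nonempty with rfl | hne
    · simp
      positivity
    have hK := fun t (ht : t ∈ F) => F.min'_le t ht
    have := count_bound (c := 0) (C := 1) hm hm0 hp hpm (g := fun i => ∑ t ∈ F, |co t (b i)|)
      (K := F.min' hne) (bad := F.image (bidx p))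
      (Finset.card_image_le.trans (hF _ (F.min'_mem hne))) le_rfl zero_le_one
      (fun i => by
        rw [zero_add]
        split_ifs with hi
        · exact (V.le_norm_S1 (b i) hF).trans (hb i)
        · apply le_of_eq
          apply Finset.sum_eq_zero
          intro t ht
          by_contra hne0
          have h3 : co t (b i) ≠ 0 := fun h => hne0 (by rw [h, abs_zero])
          obtain ⟨h4, h5⟩ := hsupp i t h3
          exact hi (Finset.mem_image.mpr ⟨t, ht, bidx_eq hp h4 h5⟩))
      (fun i hi => by
        apply le_of_eq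
        apply Finset.sum_eq_zero
        intro t ht
        by_contra hne0
        have h3 : co t (b i) ≠ 0 := fun h => hne0 (by rw [h, abs_zero])
        obtain ⟨h4, h5⟩ := hsupp i t h3
        have := hK t ht
        omega) N
    refine this.trans ?_
    have : (0 : ℝ) ≤ θ * N := by positivity
    linarith
  · intro G hG
    have hG' := hG
    obtain ⟨q, F, hF1, hF2, hF3, hF4⟩ := hG'
    rcases G.eq_empty_or_nonempty with hemp | hne
    · rw [hemp]
      simp
      positivity
    have hK := fun t (ht : t ∈ G) => G.min'_le t ht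
    have hmem : ∀ t, t ∈ G ↔ ∃ l < q, t ∈ F l := by
      intro t
      rw [hF4]
      simp
    -- starting points
    let st : ℕ → ℕ := fun l => sInf {t | t ∈ F l}
    have hst : ∀ l, ∀ t ∈ F l, st l ∈ F l ∧ st l ≤ t := by
      intro l t ht
      exact ⟨Nat.sInf_mem (s := {t | t ∈ F l}) ⟨t, ht⟩, Nat.sInf_le ht⟩
    have hcb := count_bound (c := 1) (C := 1 / θ) hm hm0 hp hpm
      (g := fun i => ∑ t ∈ G, |co t (b i)|) (K := G.min' hne)
      (bad := (Finset.range q).image fun l => bidx p (st l))
      ((Finset.card_image_le.trans (by rw [Finset.card_range])).trans (hF3 _ (G.min'_mem hne)))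
      zero_le_one (by positivity)
      (fun i => by
        split_ifs with hi
        · have h3 := (V.le_norm_S2 (b i) hG).trans (hb i)
          have h4 : ∑ t ∈ G, |co t (b i)| ≤ 1 / θ := by
            rw [le_div_iff₀ hθ]
            linarith
          change ∑ t ∈ G, |co t (b i)| ≤ 1 + 1 / θ
          linarith
        · rw [add_zero]
          by_cases hex : ∃ t ∈ G, co t (b i) ≠ 0
          · obtain ⟨t0, ht0, hne0⟩ := hex
            obtain ⟨l, hl, htl⟩ := (hmem t0).mp ht0
            obtain ⟨a1, a2⟩ := hsupp i t0 hne0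
            have hsub : ∀ t ∈ G, co t (b i) ≠ 0 → t ∈ F l := by
              intro t ht htne
              obtain ⟨l', hl', htl'⟩ := (hmem t).mp ht
              obtain ⟨c1, c2⟩ := hsupp i t htne
              by_contra hcon
              have hll : l ≠ l' := by
                rintro rfl
                exact hcon htl'
              rcases lt_or_gt_of_ne hll with h | h
              · apply hi
                rw [Finset.mem_image]
                refine ⟨l', Finset.mem_range.mpr hl', ?_⟩
                obtain ⟨s1, s2⟩ := hst l' t htl'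
                have s3 := hF2 l hl l' hl' h t0 htl _ s1
                exact bidx_eq hp (by omega) (by omega)
              · apply hi
                rw [Finset.mem_image]
                refine ⟨l, Finset.mem_range.mpr hl, ?_⟩
                obtain ⟨s1, s2⟩ := hst l t0 htl
                have s3 := hF2 l' hl' l hl h t htl' _ s1
                exact bidx_eq hp (by omega) (by omega)
            have h3 := (V.le_norm_S1 (b i) (hF1 l hl)).trans (hb i)
            refine le_trans ?_ h3
            calc ∑ t ∈ G, |co t (b i)| = ∑ t ∈ G ∩ F l, |co t (b i)| := by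
                  symm
                  apply Finset.sum_subset Finset.inter_subset_left
                  intro t ht hnt
                  by_contra hne1
                  have h5 : co t (b i) ≠ 0 := fun h => hne1 (by rw [h, abs_zero])
                  exact hnt (Finset.mem_inter.mpr ⟨ht, hsub t ht h5⟩)
              _ ≤ ∑ t ∈ F l, |co t (b i)| :=
                  Finset.sum_le_sum_of_subset_of_nonneg Finset.inter_subset_right
                    fun _ _ _ => abs_nonneg _
          · push Not at hex
            rw [Finset.sum_eq_zero fun t ht => by rw [hex t ht, abs_zero]]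
            exact zero_le_one)
      (fun i hi => by
        apply le_of_eq
        apply Finset.sum_eq_zero
        intro t ht
        by_contra hne0
        have h3 : co t (b i) ≠ 0 := fun h => hne0 (by rw [h, abs_zero])
        obtain ⟨h4, h5⟩ := hsupp i t h3
        have := hK t ht
        omega) N
    calc θ * ∑ t ∈ G, |co t (∑ n ∈ Finset.range N, (1 / (m (kk m n) : ℝ)) •
          ∑ i ∈ Finset.Ico (kk m n) (kk m (n + 1)), b i)| ≤ θ * (1 * N + 2 * (1 / θ)) :=
          mul_le_mul_of_nonneg_left ((htri G).trans hcb) h0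
      _ = θ * N + 2 := by
          have := hθ.ne'
          field_simp

end V

end Pool.Agent.LibA61181
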