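import Pool.Agent.Lib_a61181.Upper

open Filter Topology

open scoped ENNReal

namespace Pool.Agent.LibA61181

section V

variable {θ : ℝ} {h0 : 0 ≤ θ} {h1 : θ ≤ 1}

/-- restriction to the coordinates `t` with `p < t ≤ p'` -/
noncomputable def Bl (p p' : ℕ) : V θ h0 h1 →L[ℝ] V θ h0 h1 :=
  mulV (fun t => if p < t ∧ t ≤ p' then 1 else 0) (fun t => by split_ifs <;> simp)

/-- restriction to the coordinates `t ≤ p` -/
noncomputable def Pr (p : ℕ) : V θ h0 h1 →L[ℝ] V θ h0 h1 :=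
  mulV (fun t => if t ≤ p then 1 else 0) (fun t => by split_ifs <;> simp)

theorem norm_Pr_le (p : ℕ) (x : V θ h0 h1) : ‖Pr p x‖ ≤ ‖x‖ := norm_mulV_le _ _ x

theorem norm_Bl_le (p p' : ℕ) (x : V θ h0 h1) : ‖Bl p p' x‖ ≤ ‖x‖ := norm_mulV_le _ _ x

theorem co_Pr (p t : ℕ) (x : V θ h0 h1) : co t (Pr p x) = (if t ≤ p then 1 else 0) * co t x :=
  co_mulV _ _ x t

theorem co_Bl (p p' t : ℕ) (x : V θ h0 h1) :
    co t (Bl p p' x) = (if p < t ∧ t ≤ p' then 1 else 0) * co t x :=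
  co_mulV _ _ x t

theorem V.ext_co {x y : V θ h0 h1} (h : ∀ t, co t x = co t y) : x = y := by
  rw [← sub_eq_zero, ← norm_le_zero_iff]
  apply V.norm_le le_rfl
  · intro F _
    apply le_of_eq
    apply Finset.sum_eq_zero
    intro t _
    rw [map_sub, h t, sub_self, abs_zero]
  · intro G _
    apply le_of_eq
    rw [Finset.sum_eq_zero, mul_zero]
    intro t _
    rw [map_sub, h t, sub_self, abs_zero]

theorem Bl_eq {p p' : ℕ} (h : p ≤ p') (x : V θ h0 h1) : Bl p p' x = Pr p' x - Pr p x := by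
  apply V.ext_co
  intro t
  rw [map_sub, co_Bl, co_Pr, co_Pr]
  by_cases a : t ≤ p
  · rw [if_neg (by omega), if_pos (a.trans h), if_pos a]
    ring
  · by_cases b : t ≤ p'
    · rw [if_pos ⟨not_le.mp a, b⟩, if_pos b, if_neg a]
      ring
    · rw [if_neg (fun h => b h.2), if_neg b, if_neg a]
      ring

theorem Pr_un {p n : ℕ} (h : n ≤ p) : Pr p (un n : V θ h0 h1) = un n := by
  apply V.ext_co
  intro t
  rw [co_Pr, co_un]
  by_cases h2 : t = n ∧ 1 ≤ t
  · rw [if_pos (h2.1 ▸ h), one_mul]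
  · rw [if_neg h2, mul_zero]

theorem tendsto_Pr (x : V θ h0 h1) : ∀ ε > 0, ∃ P : ℕ, ∀ p ≥ P, ‖x - Pr p x‖ ≤ ε := by
  have hτ : ∀ p : ℕ, ∀ t, |(fun t => if t ≤ p then (1 : ℝ) else 0) t| ≤ 1 := by
    intro p t
    dsimp only
    split_ifs <;> simp
  have key : ∀ x : V θ h0 h1, ∀ ε > 0, ∃ P : ℕ, ∀ p ≥ P,
      ‖(x : Amb) - mulOp (fun t => if t ≤ p then (1 : ℝ) else 0) (hτ p) x‖ ≤ ε := by
    intro x
    refine V.induct (p := fun y : Amb => ∀ ε > 0, ∃ P : ℕ, ∀ p ≥ P,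
      ‖y - mulOp (fun t => if t ≤ p then (1 : ℝ) else 0) (hτ p) y‖ ≤ ε) ?_ ?_ ?_ ?_ ?_ x
    · apply isClosed_of_closure_subset
      intro y hy ε hε
      rw [Metric.mem_closure_iff] at hy
      obtain ⟨z, hz, hyz⟩ := hy (ε / 3) (by positivity)
      obtain ⟨P, hP⟩ := hz (ε / 3) (by positivity)
      refine ⟨P, fun p hp => ?_⟩
      rw [dist_eq_norm] at hyz
      have e : y - mulOp (fun t => if t ≤ p then (1 : ℝ) else 0) (hτ p) y =
          (y - z) + (z - mulOp (fun t => if t ≤ p then (1 : ℝ) else 0) (hτ p) z) -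
          mulOp (fun t => if t ≤ p then (1 : ℝ) else 0) (hτ p) (y - z) := by
        rw [map_sub]
        abel
      rw [e]
      have a1 := norm_mulOp_le _ (hτ p) (y - z)
      have a2 := hP p hp
      calc _ ≤ ‖(y - z) + (z - mulOp (fun t => if t ≤ p then (1 : ℝ) else 0) (hτ p) z)‖ +
            ‖mulOp (fun t => if t ≤ p then (1 : ℝ) else 0) (hτ p) (y - z)‖ := norm_sub_le _ _
        _ ≤ (‖y - z‖ + ‖z - mulOp (fun t => if t ≤ p then (1 : ℝ) else 0) (hτ p) z‖) +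
            ‖y - z‖ := add_le_add (norm_add_le _ _) a1
        _ ≤ (ε / 3 + ε / 3) + ε / 3 := by gcongr
        _ = ε := by ring
    · intro n ε hε
      refine ⟨n, fun p hp => ?_⟩
      have h2 : mulOp (fun t => if t ≤ p then (1 : ℝ) else 0) (hτ p) (uv θ h0 h1 n) =
          uv θ h0 h1 n := congrArg Subtype.val (Pr_un (θ := θ) (h0 := h0) (h1 := h1) hp)
      rw [h2, sub_self, norm_zero]
      exact hε.le
    · intro ε hε
      refine ⟨0, fun p _ => ?_⟩
      rw [map_zero, sub_zero, norm_zero]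
      exact hε.le
    · intro a b ha hb ε hε
      obtain ⟨P, hP⟩ := ha (ε / 2) (by positivity)
      obtain ⟨Q, hQ⟩ := hb (ε / 2) (by positivity)
      refine ⟨max P Q, fun p hp => ?_⟩
      have a1 := hP p (le_trans (le_max_left _ _) hp)
      have a2 := hQ p (le_trans (le_max_right _ _) hp)
      rw [map_add]
      calc _ = ‖(a - mulOp (fun t => if t ≤ p then (1 : ℝ) else 0) (hτ p) a) +
            (b - mulOp (fun t => if t ≤ p then (1 : ℝ) else 0) (hτ p) b)‖ := by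
            congr 1
            abel
        _ ≤ ε / 2 + ε / 2 := (norm_add_le _ _).trans (add_le_add a1 a2)
        _ = ε := by ring
    · intro c a ha ε hε
      obtain ⟨P, hP⟩ := ha (ε / (|c| + 1)) (by positivity)
      refine ⟨P, fun p hp => ?_⟩
      rw [map_smul, ← smul_sub, norm_smul, Real.norm_eq_abs]
      calc |c| * ‖a - mulOp (fun t => if t ≤ p then (1 : ℝ) else 0) (hτ p) a‖
          ≤ (|c| + 1) * (ε / (|c| + 1)) := by
            gcongr
            · linarith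
            · exact hP p hp
        _ = ε := by field_simp
  exact key x

theorem norm_Pr_le_sum (p : ℕ) (y : V θ h0 h1) :
    ‖Pr p y‖ ≤ ∑ t ∈ Finset.range (p + 1), |co t y| := by
  have hw : ∀ G : Finset ℕ, ∑ t ∈ G, |co t (Pr p y)| ≤ ∑ t ∈ Finset.range (p + 1), |co t y| := by
    intro G
    refine (sum_le_total (fun t => abs_nonneg _) (s := Finset.range (p + 1)) ?_ G).trans ?_
    · intro t ht
      rw [Finset.mem_range] at ht
      rw [co_Pr, if_neg (by omega), zero_mul, abs_zero]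
    · apply Finset.sum_le_sum
      intro t _
      rw [co_Pr]
      split_ifs <;> simp
  apply V.norm_le (Finset.sum_nonneg fun _ _ => abs_nonneg _)
  · intro F _
    exact hw F
  · intro G _
    have h3 : 0 ≤ ∑ t ∈ G, |co t (Pr p y)| := Finset.sum_nonneg fun _ _ => abs_nonneg _
    calc θ * ∑ t ∈ G, |co t (Pr p y)| ≤ 1 * ∑ t ∈ G, |co t (Pr p y)| := by gcongr
      _ ≤ _ := by rw [one_mul]; exact hw G

theorem tendsto_weak {x : ℕ → V θ h0 h1} {x₀ : V θ h0 h1}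
    (hx : ∀ f : StrongDual ℝ (V θ h0 h1), Tendsto (fun n => f (x n)) atTop (𝓝 (f x₀))) (p : ℕ) :
    ∀ ε > 0, ∃ N : ℕ, ∀ n ≥ N, ‖Pr p (x n - x₀)‖ ≤ ε := by
  intro ε hε
  have h2 : Tendsto (fun n => ∑ t ∈ Finset.range (p + 1), |co t (x n - x₀)|) atTop (𝓝 0) := by
    have : (0 : ℝ) = ∑ t ∈ Finset.range (p + 1), (0 : ℝ) := by simp
    rw [this]
    apply tendsto_finsetSum
    intro t _
    have h3 := (hx (co t)).sub_const (co t x₀)
    rw [sub_self] at h3
    have h4 := h3.abs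
    rw [abs_zero] at h4
    refine h4.congr fun n => ?_
    rw [map_sub]
  obtain ⟨N, hN⟩ := (Metric.tendsto_atTop.mp h2) ε hε
  refine ⟨N, fun n hn => (norm_Pr_le_sum p _).trans ?_⟩
  have := hN n hn
  rw [Real.dist_eq, sub_zero] at this
  exact (le_abs_self _).trans this.le

end V

theorem exists_chain {α : Type*} (P : ℕ → α → Prop) (R : ℕ → α → α → Prop) (h0 : ∃ a, P 0 a)
    (h : ∀ i a, P i a → ∃ b, P (i + 1) b ∧ R i a b) :
    ∃ f : ℕ → α, (∀ i, P i (f i)) ∧ ∀ i, R i (f i) (f (i + 1)) := by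
  choose! g hg using h
  obtain ⟨a, ha⟩ := h0
  let f : ℕ → α := fun n => Nat.rec a (fun i b => g i b) n
  have hP : ∀ i, P i (f i) := by
    intro i
    induction i with
    | zero => exact ha
    | succ i ih => exact (hg i _ ih).1
  exact ⟨f, hP, fun i => (hg i _ (hP i)).2⟩

section V

variable {θ : ℝ} {h0 : 0 ≤ θ} {h1 : θ ≤ 1}

/-- choice of a sparse subsequence -/
theorem exists_sparse {x : ℕ → V θ h0 h1} (hb : ∀ n, ‖x n‖ ≤ 1) {x₀ : V θ h0 h1}
    (hx : ∀ f : StrongDual ℝ (V θ h0 h1), Tendsto (fun n => f (x n)) atTop (𝓝 (f x₀))) :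
    ∃ (m p : ℕ → ℕ) (b : ℕ → V θ h0 h1), StrictMono m ∧ 1 ≤ m 0 ∧ Monotone p ∧
      (∀ i, p i ≤ m i) ∧ (∀ i, ‖b i‖ ≤ 1) ∧
      (∀ i t, co t (b i) ≠ 0 → p i < t ∧ t ≤ p (i + 1)) ∧
      (∀ i, ‖x (m i) - x₀ - b i‖ ≤ 3 * (1 / 2) ^ i) := by
  obtain ⟨f, hf1, hf2⟩ := exists_chain
    (fun i (a : ℕ × ℕ) => 1 ≤ a.2 ∧ a.1 ≤ a.2 ∧ ‖x₀ - Pr a.1 x₀‖ ≤ (1 / 2 : ℝ) ^ i ∧
      ‖Pr a.1 (x a.2 - x₀)‖ ≤ (1 / 2 : ℝ) ^ i)
    (fun i (a a' : ℕ × ℕ) => a.1 ≤ a'.1 ∧ a.2 < a'.2 ∧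
      ‖x a.2 - Pr a'.1 (x a.2)‖ ≤ (1 / 2 : ℝ) ^ i)
    (by
      obtain ⟨P, hP⟩ := tendsto_Pr x₀ ((1 / 2 : ℝ) ^ 0) (by positivity)
      obtain ⟨N, hN⟩ := tendsto_weak hx P ((1 / 2 : ℝ) ^ 0) (by positivity)
      exact ⟨(P, max (max N P) 1), le_max_right _ _,
        (le_max_right N P).trans (le_max_left _ _), hP P le_rfl,
        hN _ ((le_max_left N P).trans (le_max_left _ _))⟩)
    (by
      rintro i ⟨p, m⟩ -
      obtain ⟨P, hP⟩ := tendsto_Pr x₀ ((1 / 2 : ℝ) ^ (i + 1)) (by positivity)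
      obtain ⟨P', hP'⟩ := tendsto_Pr (x m) ((1 / 2 : ℝ) ^ i) (by positivity)
      set p' := max (max P P') p with hp'
      obtain ⟨N, hN⟩ := tendsto_weak hx p' ((1 / 2 : ℝ) ^ (i + 1)) (by positivity)
      refine ⟨(p', max (max N p') (m + 1)), ⟨?_, ?_, hP p' ?_, hN _ ?_⟩, ?_, ?_, hP' p' ?_⟩
      · exact le_trans (by omega) (le_max_right _ _)
      · exact (le_max_right N p').trans (le_max_left _ _)
      · exact (le_max_left P P').trans (le_max_left _ _)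
      · exact (le_max_left N p').trans (le_max_left _ _)
      · exact le_max_right _ _
      · exact lt_of_lt_of_le (Nat.lt_succ_self m) (le_max_right _ _)
      · exact (le_max_right P P').trans (le_max_left _ _))
  refine ⟨fun i => (f i).2, fun i => (f i).1, fun i => Bl (f i).1 (f (i + 1)).1 (x (f i).2),
    strictMono_nat_of_lt_succ fun i => (hf2 i).2.1, (hf1 0).1,
    monotone_nat_of_le_succ fun i => (hf2 i).1, fun i => (hf1 i).2.1,
    fun i => (norm_Bl_le _ _ _).trans (hb _), ?_, ?_⟩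
  · intro i t ht
    rw [co_Bl] at ht
    by_contra hcon
    rw [if_neg hcon, zero_mul] at ht
    exact ht rfl
  · intro i
    obtain ⟨-, -, a3, a4⟩ := hf1 i
    obtain ⟨b1, -, b3⟩ := hf2 i
    change ‖x (f i).2 - x₀ - Bl (f i).1 (f (i + 1)).1 (x (f i).2)‖ ≤ _
    have e : x (f i).2 - x₀ - Bl (f i).1 (f (i + 1)).1 (x (f i).2) =
        (x (f i).2 - Pr (f (i + 1)).1 (x (f i).2)) + Pr (f i).1 (x (f i).2 - x₀) -
          (x₀ - Pr (f i).1 x₀) := by
      rw [Bl_eq b1, map_sub]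
      abel
    rw [e]
    calc _ ≤ ‖(x (f i).2 - Pr (f (i + 1)).1 (x (f i).2)) + Pr (f i).1 (x (f i).2 - x₀)‖ +
          ‖x₀ - Pr (f i).1 x₀‖ := norm_sub_le _ _
      _ ≤ ((1 / 2) ^ i + (1 / 2) ^ i) + (1 / 2) ^ i := by
          gcongr
          exact (norm_add_le _ _).trans (add_le_add b3 a4)
      _ = 3 * (1 / 2) ^ i := by ring

/-- upper bound for the Cesaro means -/
theorem cesaro_bound (hθ : 0 < θ) {x : ℕ → V θ h0 h1} {x₀ : V θ h0 h1} {m p : ℕ → ℕ}
    {b : ℕ → V θ h0 h1} (hm : StrictMono m) (hm0 : 1 ≤ m 0) (hp : Monotone p)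
    (hpm : ∀ i, p i ≤ m i) (hb : ∀ i, ‖b i‖ ≤ 1)
    (hsupp : ∀ i t, co t (b i) ≠ 0 → p i < t ∧ t ≤ p (i + 1))
    (hr : ∀ i, ‖x (m i) - x₀ - b i‖ ≤ 3 * (1 / 2) ^ i) (N : ℕ) :
    ‖(1 / ((N : ℝ) + 1)) • ∑ n ∈ Finset.range (N + 1), (1 / (m (kk m n) : ℝ)) •
      ∑ i ∈ Finset.Ico (kk m n) (kk m (n + 1)), x (m i) - x₀‖ ≤ θ + 8 / ((N : ℝ) + 1) := by
  have hpos : ∀ i, (0 : ℝ) < m i := fun i => by
    have : 1 ≤ m i := hm0.trans (hm.monotone (Nat.zero_le i))
    exact_mod_cast this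
  have hN : (0 : ℝ) < (N : ℝ) + 1 := by positivity
  set D := ∑ n ∈ Finset.range (N + 1), (1 / (m (kk m n) : ℝ)) •
      ∑ i ∈ Finset.Ico (kk m n) (kk m (n + 1)), b i with hD
  set R := ∑ n ∈ Finset.range (N + 1), (1 / (m (kk m n) : ℝ)) •
      ∑ i ∈ Finset.Ico (kk m n) (kk m (n + 1)), (x (m i) - x₀ - b i) with hR
  have hDb : ‖D‖ ≤ θ * ((N : ℝ) + 1) + 2 := by
    have := block_bound hθ hm.monotone hm0 hp hpm b hb hsupp (N + 1)
    push_cast at this
    exact this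
  have hRb : ‖R‖ ≤ 6 := by
    have e1 : ‖R‖ ≤ ∑ n ∈ Finset.range (N + 1),
        ∑ i ∈ Finset.Ico (kk m n) (kk m (n + 1)), 3 * (1 / 2 : ℝ) ^ i := by
      rw [hR]
      refine (norm_sum_le _ _).trans (Finset.sum_le_sum fun n _ => ?_)
      rw [norm_smul]
      have e2 : ‖(1 / (m (kk m n) : ℝ))‖ ≤ 1 := by
        rw [Real.norm_of_nonneg (by positivity)]
        rw [div_le_one (hpos _)]
        have : 1 ≤ m (kk m n) := hm0.trans (hm.monotone (Nat.zero_le _))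
        exact_mod_cast this
      calc _ ≤ 1 * ‖∑ i ∈ Finset.Ico (kk m n) (kk m (n + 1)), (x (m i) - x₀ - b i)‖ := by gcongr
        _ ≤ ∑ i ∈ Finset.Ico (kk m n) (kk m (n + 1)), 3 * (1 / 2 : ℝ) ^ i := by
            rw [one_mul]
            exact (norm_sum_le _ _).trans (Finset.sum_le_sum fun i _ => hr i)
    have e3 : ∑ n ∈ Finset.range (N + 1),
        ∑ i ∈ Finset.Ico (kk m n) (kk m (n + 1)), 3 * (1 / 2 : ℝ) ^ i =
        ∑ i ∈ Finset.range (kk m (N + 1)), 3 * (1 / 2 : ℝ) ^ i := by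
      induction (N + 1) with
      | zero => simp [kk]
      | succ k ih =>
        rw [Finset.sum_range_succ, ih, Finset.range_eq_Ico, Finset.range_eq_Ico,
          Finset.sum_Ico_consecutive _ (Nat.zero_le _) (kk_le_succ m k)]
    rw [e3, ← Finset.mul_sum] at e1
    have e4 : ∑ i ∈ Finset.range (kk m (N + 1)), (1 / 2 : ℝ) ^ i ≤ 2 := by
      rw [geom_sum_eq (by norm_num)]
      have : (0 : ℝ) ≤ (1 / 2) ^ kk m (N + 1) := by positivity
      rw [div_le_iff_of_neg (by norm_num)]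
      linarith
    linarith
  have hsplit : (∑ n ∈ Finset.range (N + 1), (1 / (m (kk m n) : ℝ)) •
      ∑ i ∈ Finset.Ico (kk m n) (kk m (n + 1)), x (m i)) = D + R + ((N : ℝ) + 1) • x₀ := by
    have e5 : ∀ n, (1 / (m (kk m n) : ℝ)) •
        ∑ i ∈ Finset.Ico (kk m n) (kk m (n + 1)), x (m i) =
        (1 / (m (kk m n) : ℝ)) • ∑ i ∈ Finset.Ico (kk m n) (kk m (n + 1)), b i +
        (1 / (m (kk m n) : ℝ)) •
          ∑ i ∈ Finset.Ico (kk m n) (kk m (n + 1)), (x (m i) - x₀ - b i) + x₀ := by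
      intro n
      rw [Finset.sum_sub_distrib, Finset.sum_sub_distrib, Finset.sum_const, card_block,
        ← Nat.cast_smul_eq_nsmul ℝ]
      have e6 : (1 / (m (kk m n) : ℝ)) • ((m (kk m n) : ℝ) • x₀) = x₀ := by
        rw [smul_smul, one_div, inv_mul_cancel₀ (hpos _).ne', one_smul]
      rw [smul_sub, smul_sub, e6]
      abel
    rw [Finset.sum_congr rfl fun n _ => e5 n, Finset.sum_add_distrib, Finset.sum_add_distrib,
      Finset.sum_const, Finset.card_range, ← Nat.cast_smul_eq_nsmul ℝ]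
    push_cast
    rfl
  rw [hsplit, smul_add, smul_smul, one_div, inv_mul_cancel₀ hN.ne', one_smul, add_sub_cancel_right,
    norm_smul, Real.norm_of_nonneg (by positivity), inv_mul_le_iff₀ hN]
  calc ‖D + R‖ ≤ (θ * ((N : ℝ) + 1) + 2) + 6 := (norm_add_le _ _).trans (add_le_add hDb hRb)
    _ = ((N : ℝ) + 1) * (θ + 8 / ((N : ℝ) + 1)) := by
        field_simp
        ring

end V

theorem nth_range {m : ℕ → ℕ} (hm : StrictMono m) :
    Nat.nth (fun k => k ∈ Set.range m) = m := by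
  have hinf : (Set.range m).Infinite := Set.infinite_range_of_injective hm.injective
  have h1 : StrictMono (Nat.nth (fun k => k ∈ Set.range m)) := Nat.nth_strictMono hinf
  rw [← StrictMono.range_inj h1 hm]
  exact Nat.range_nth_of_infinite hinf

theorem ca_le {X : Type*} [NormedAddCommGroup X] [NormedSpace ℝ X] {y : ℕ → X} {x₀ : X}
    {a C : ℝ} (hC : 0 ≤ C) (h : ∀ n : ℕ, ‖y n - x₀‖ ≤ a + C / ((n : ℝ) + 1)) :
    ca y ≤ ENNReal.ofReal (2 * a) := by
  have key : ∀ n : ℕ, ca y ≤ ENNReal.ofReal (2 * a + 2 * C / ((n : ℝ) + 1)) := by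
    intro n
    refine (iInf_le _ n).trans ?_
    refine iSup_le fun k => iSup_le fun l => iSup_le fun hk => iSup_le fun hl => ?_
    apply ENNReal.ofReal_le_ofReal
    have e : y k - y l = (y k - x₀) - (y l - x₀) := by abel
    rw [e]
    refine (norm_sub_le _ _).trans ((add_le_add (h k) (h l)).trans ?_)
    have h2 : C / ((k : ℝ) + 1) ≤ C / ((n : ℝ) + 1) := by
      apply div_le_div_of_nonneg_left hC (by positivity)
      have : (n : ℝ) ≤ k := by exact_mod_cast hk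
      linarith
    have h3 : C / ((l : ℝ) + 1) ≤ C / ((n : ℝ) + 1) := by
      apply div_le_div_of_nonneg_left hC (by positivity)
      have : (n : ℝ) ≤ l := by exact_mod_cast hl
      linarith
    have h4 : 2 * C / ((n : ℝ) + 1) = C / ((n : ℝ) + 1) + C / ((n : ℝ) + 1) := by ring
    linarith
  have h5 : Tendsto (fun n : ℕ => 2 * C * (1 / ((n : ℝ) + 1))) atTop (𝓝 (2 * C * 0)) :=
    tendsto_one_div_add_atTop_nhds_zero_nat.const_mul _
  have h6 : Tendsto (fun n : ℕ => 2 * a + 2 * C / ((n : ℝ) + 1)) atTop (𝓝 (2 * a)) := by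
    have h7 := h5.const_add (2 * a)
    rw [mul_zero, add_zero] at h7
    refine h7.congr fun n => ?_
    ring
  exact ge_of_tendsto' (ENNReal.tendsto_ofReal h6) key

section V

variable {θ : ℝ} {h0 : 0 ≤ θ} {h1 : θ ≤ 1}

theorem wbs_le (hθ : 0 < θ) (c : Ordinal.{0} → ℕ → Ordinal.{0}) :
    wbs c 1 (Metric.closedBall (0 : V θ h0 h1) 1) ≤ ENNReal.ofReal (2 * θ) := by
  refine iSup_le fun x => iSup_le fun hx => iSup_le fun hw => ?_
  obtain ⟨x₀, hx₀⟩ := hw
  have hb : ∀ n, ‖x n‖ ≤ 1 := fun n => by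
    have := hx n
    rwa [mem_closedBall_zero_iff] at this
  obtain ⟨m, p, b, hm, hm0, hp, hpm, hb1, hsupp, hr⟩ := exists_sparse hb hx₀
  have hinf : (Set.range m).Infinite := Set.infinite_range_of_injective hm.injective
  have h0m : 0 ∉ Set.range m := by
    rintro ⟨i, hi⟩
    have : m 0 ≤ m i := hm.monotone (Nat.zero_le i)
    omega
  refine (iInf_le _ (Set.range m)).trans ((iInf_le _ hinf).trans ((iInf_le _ h0m).trans ?_))
  refine ca_le (x₀ := x₀) (a := θ) (C := 8) (by norm_num) fun n => ?_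
  simp_rw [dot_avg_one, nth_range hm]
  exact cesaro_bound hθ hm hm0 hp hpm hb1 hsupp hr n

end V

end Pool.Agent.LibA61181
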