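import Pool.Agent.Lib_a61181.Space

open Filter Topology

open scoped ENNReal

namespace Pool.Agent.LibA61181

/-- small averages on `A` -/
def Small (P : Finset ℕ → Prop) (A : Set ℕ) : Prop :=
  ∀ η : ℝ, 0 < η → ∀ K : ℕ, ∃ (s : Finset ℕ) (v : ℕ → ℝ), (∀ t, 0 ≤ v t) ∧
    (∀ t, t ∉ s → v t = 0) ∧ (∀ t ∈ s, t ∈ A ∧ K < t) ∧ ∑ t ∈ s, v t = 1 ∧
    ∀ F, P F → ∑ t ∈ F, v t ≤ η

/-- Schreier type successor family, without the requirement that the sets are successive -/
def Nxt (P : Finset ℕ → Prop) (G : Finset ℕ) : Prop :=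
  ∃ (q : ℕ) (F : ℕ → Finset ℕ), (∀ l < q, P (F l)) ∧ (∀ a ∈ G, q ≤ a) ∧
    G = (Finset.range q).biUnion F

theorem sum_biUnion_le' {w : ℕ → ℝ} (hw : ∀ t, 0 ≤ w t) (q : ℕ) (F : ℕ → Finset ℕ) :
    ∑ t ∈ (Finset.range q).biUnion F, w t ≤ ∑ l ∈ Finset.range q, ∑ t ∈ F l, w t := by
  induction q with
  | zero => simp
  | succ q ih =>
    rw [Finset.range_add_one, Finset.biUnion_insert, Finset.sum_insert Finset.notMem_range_self]
    have h1 := Finset.sum_union_inter (s₁ := F q) (s₂ := (Finset.range q).biUnion F) (f := w)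
    have h2 : 0 ≤ ∑ t ∈ F q ∩ (Finset.range q).biUnion F, w t :=
      Finset.sum_nonneg fun t _ => hw t
    linarith

theorem sum_le_total {w : ℕ → ℝ} (hw : ∀ t, 0 ≤ w t) {s : Finset ℕ} (hs : ∀ t, t ∉ s → w t = 0)
    (G : Finset ℕ) : ∑ t ∈ G, w t ≤ ∑ t ∈ s, w t := by
  have h1 : ∑ t ∈ G, w t = ∑ t ∈ G ∩ s, w t := by
    symm
    apply Finset.sum_subset Finset.inter_subset_left
    intro t ht hts
    apply hs
    intro h
    exact hts (Finset.mem_inter.mpr ⟨ht, h⟩)
  rw [h1]
  exact Finset.sum_le_sum_of_subset_of_nonneg Finset.inter_subset_right fun t _ _ => hw t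

theorem Small.nxt {P : Finset ℕ → Prop} {A : Set ℕ} (h : Small P A) : Small (Nxt P) A := by
  intro η hη K
  obtain ⟨Q, hQ⟩ := exists_nat_gt (2 / η)
  have hQ0 : (0 : ℝ) < Q := lt_trans (by positivity) hQ
  have claim : ∀ J : ℕ, ∃ (s : Finset ℕ) (v : ℕ → ℝ), (∀ t, 0 ≤ v t) ∧
      (∀ t, t ∉ s → v t = 0) ∧ (∀ t ∈ s, t ∈ A ∧ K < t) ∧ ∑ t ∈ s, v t = J ∧
      ∀ G, Nxt P G → ∑ t ∈ G, v t ≤ 1 + J / Q := by
    intro J
    induction J with
    | zero =>
      exact ⟨∅, fun _ => 0, by simp, by simp, by simp, by simp, by simp⟩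
    | succ J ih =>
      obtain ⟨s, v, hv1, hv2, hv3, hv4, hv5⟩ := ih
      set K' := max K (s.sup id) with hK'
      have hη' : (0 : ℝ) < 1 / (Q * (K' + 1)) := by positivity
      obtain ⟨s', w, hw1, hw2, hw3, hw4, hw5⟩ := h (1 / (Q * (K' + 1))) hη' K'
      refine ⟨s ∪ s', fun t => v t + w t, fun t => add_nonneg (hv1 t) (hw1 t), ?_, ?_, ?_, ?_⟩
      · intro t ht
        rw [Finset.mem_union, not_or] at ht
        change v t + w t = 0
        rw [hv2 t ht.1, hw2 t ht.2, add_zero]
      · intro t ht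
        rcases Finset.mem_union.mp ht with h1 | h1
        · exact hv3 t h1
        · exact ⟨(hw3 t h1).1, lt_of_le_of_lt (le_max_left _ _) (hw3 t h1).2⟩
      · rw [Finset.sum_add_distrib]
        have e1 : ∑ t ∈ s ∪ s', v t = J := by
          rw [← hv4]
          symm
          exact Finset.sum_subset Finset.subset_union_left fun t _ ht => hv2 t ht
        have e2 : ∑ t ∈ s ∪ s', w t = 1 := by
          rw [← hw4]
          symm
          exact Finset.sum_subset Finset.subset_union_right fun t _ ht => hw2 t ht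
        rw [e1, e2]
        push_cast
        ring
      · intro G hG
        rw [Finset.sum_add_distrib]
        by_cases hint : ∃ t ∈ G, t ∈ s
        · obtain ⟨t, htG, hts⟩ := hint
          have h1 := hv5 G hG
          obtain ⟨q, F, hF1, hF2, rfl⟩ := hG
          have hq : q ≤ K' := by
            have := Finset.le_sup (f := id) hts
            exact (hF2 t htG).trans (this.trans (le_max_right _ _))
          have h2 : ∑ t ∈ (Finset.range q).biUnion F, w t ≤ 1 / Q := by
            refine (sum_biUnion_le' hw1 q F).trans ?_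
            calc ∑ l ∈ Finset.range q, ∑ t ∈ F l, w t
                ≤ ∑ l ∈ Finset.range q, 1 / (Q * ((K' : ℝ) + 1)) :=
                  Finset.sum_le_sum fun l hl => hw5 _ (hF1 l (Finset.mem_range.mp hl))
              _ = q * (1 / (Q * ((K' : ℝ) + 1))) := by
                  rw [Finset.sum_const, Finset.card_range, nsmul_eq_mul]
              _ ≤ (K' + 1) * (1 / (Q * ((K' : ℝ) + 1))) := by
                  apply mul_le_mul_of_nonneg_right _ hη'.le
                  have : (q : ℝ) ≤ K' := by exact_mod_cast hq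
                  linarith
              _ = 1 / Q := by field_simp
          push_cast
          have e : (1 : ℝ) + (J + 1) / Q = (1 + J / Q) + 1 / Q := by ring
          rw [e]
          exact add_le_add h1 h2
        · push Not at hint
          have h1 : ∑ t ∈ G, v t = 0 := Finset.sum_eq_zero fun t ht => hv2 t (hint t ht)
          have h2 := sum_le_total hw1 hw2 G
          rw [hw4] at h2
          rw [h1, zero_add]
          have : (0 : ℝ) ≤ ((J + 1 : ℕ) : ℝ) / Q := by positivity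
          linarith
  obtain ⟨s, v, hv1, hv2, hv3, hv4, hv5⟩ := claim Q
  refine ⟨s, fun t => v t / Q, fun t => div_nonneg (hv1 t) hQ0.le, ?_, hv3, ?_, ?_⟩
  · intro t ht
    change v t / Q = 0
    rw [hv2 t ht, zero_div]
  · rw [← Finset.sum_div, hv4, div_self hQ0.ne']
  · intro G hG
    rw [← Finset.sum_div]
    have h1 := hv5 G hG
    rw [div_self hQ0.ne'] at h1
    rw [div_le_iff₀ hQ0]
    have h2 : 2 < η * Q := by
      rw [div_lt_iff₀ hη] at hQ
      linarith
    linarith

theorem small_base {A : Set ℕ} (hA : A.Infinite) : Small (fun F => F.card ≤ 1) A := by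
  intro η hη K
  obtain ⟨n, hn⟩ := exists_nat_gt (1 / η)
  have hn0 : (0 : ℝ) < n := lt_trans (by positivity) hn
  have hA' : (A \ Set.Iic K).Infinite := hA.sdiff (Set.finite_Iic K)
  obtain ⟨s, hs, hcard⟩ := hA'.exists_subset_card_eq n
  refine ⟨s, fun t => if t ∈ s then 1 / n else 0, ?_, ?_, ?_, ?_, ?_⟩
  · intro t
    dsimp only
    split_ifs
    · positivity
    · exact le_rfl
  · intro t ht
    exact if_neg ht
  · intro t ht
    have := hs ht
    exact ⟨this.1, by simpa using this.2⟩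
  · rw [Finset.sum_congr rfl (fun t ht => if_pos ht), Finset.sum_const, hcard, nsmul_eq_mul]
    field_simp
  · intro F hF
    have h1 : ∀ t ∈ F, (if t ∈ s then 1 / (n : ℝ) else 0) ≤ η := by
      intro t _
      have h2 : 1 / (n : ℝ) ≤ η := by
        rw [div_lt_iff₀ hη] at hn
        rw [div_le_iff₀ hn0]
        linarith
      split_ifs
      · exact h2
      · exact hη.le
    calc ∑ t ∈ F, (if t ∈ s then 1 / (n : ℝ) else 0) ≤ ∑ t ∈ F, η := Finset.sum_le_sum h1
      _ = F.card * η := by rw [Finset.sum_const, nsmul_eq_mul]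
      _ ≤ 1 * η := by
          apply mul_le_mul_of_nonneg_right _ hη.le
          exact_mod_cast hF
      _ = η := one_mul _

theorem S1.nxt {F : Finset ℕ} (h : S1 F) : Nxt (fun F => F.card ≤ 1) F := by
  refine ⟨F.card, fun l => if hl : l < F.card then {F.orderEmbOfFin rfl ⟨l, hl⟩} else ∅, ?_, h, ?_⟩
  · intro l hl
    simp [hl]
  · ext a
    simp only [Finset.mem_biUnion, Finset.mem_range]
    constructor
    · intro ha
      have : a ∈ Set.range (F.orderEmbOfFin rfl) := by
        rw [Finset.range_orderEmbOfFin]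
        exact ha
      obtain ⟨i, hi⟩ := this
      refine ⟨i, i.2, ?_⟩
      rw [dif_pos i.2, Finset.mem_singleton]
      exact hi.symm
    · rintro ⟨l, hl, ha⟩
      rw [dif_pos hl, Finset.mem_singleton] at ha
      rw [ha]
      exact Finset.orderEmbOfFin_mem _ _ _

theorem S2.nxt {G : Finset ℕ} (h : S2 G) : Nxt (Nxt fun F => F.card ≤ 1) G := by
  obtain ⟨q, F, h1, -, h3, h4⟩ := h
  exact ⟨q, F, fun l hl => (h1 l hl).nxt, h3, h4⟩

theorem S1.nxt2 {F : Finset ℕ} (h : S1 F) : Nxt (Nxt fun F => F.card ≤ 1) F :=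
  ⟨1, fun _ => F, fun _ _ => h.nxt, fun a ha => h.pos ha, by simp⟩

section V

variable {θ : ℝ} {h0 : 0 ≤ θ} {h1 : θ ≤ 1}

theorem tendsto_un (f : StrongDual ℝ (V θ h0 h1)) :
    Tendsto (fun n => f (un n)) atTop (𝓝 0) := by
  by_contra hcon
  obtain ⟨ε, hε, hA⟩ : ∃ ε > 0, {n | ε ≤ |f (un n)|}.Infinite := by
    by_contra hno
    push Not at hno
    apply hcon
    rw [Metric.tendsto_atTop]
    intro ε hε
    have hfin := hno ε hε
    obtain ⟨N, hN⟩ := hfin.bddAbove
    refine ⟨N + 1, fun n hn => ?_⟩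
    rw [Real.dist_eq, sub_zero]
    by_contra hle
    have : n ≤ N := hN (show ε ≤ |f (un n)| from not_lt.mp hle)
    omega
  obtain ⟨s, v, hv1, hv2, hv3, hv4, hv5⟩ := (small_base hA).nxt.nxt (ε / (2 * (‖f‖ + 1)))
    (by positivity) 0
  set z : V θ h0 h1 := ∑ t ∈ s, (v t * (SignType.sign (f (un t : V θ h0 h1)) : ℝ)) • un t with hz
  have hco : ∀ t, |co t z| ≤ v t := by
    intro t
    rw [hz, map_sum]
    simp_rw [map_smul, co_un, smul_eq_mul]
    have e : ∑ x ∈ s, v x * (SignType.sign (f (un x : V θ h0 h1)) : ℝ) *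
        (if t = x ∧ 1 ≤ t then (1 : ℝ) else 0) =
        if t ∈ s ∧ 1 ≤ t then v t * (SignType.sign (f (un t : V θ h0 h1)) : ℝ) else 0 := by
      by_cases ht : t ∈ s ∧ 1 ≤ t
      · rw [if_pos ht, Finset.sum_eq_single t]
        · rw [if_pos ⟨rfl, ht.2⟩, mul_one]
        · intro b _ hb
          rw [if_neg (fun h : t = b ∧ 1 ≤ t => hb h.1.symm), mul_zero]
        · intro h
          exact absurd ht.1 h
      · rw [if_neg ht]
        apply Finset.sum_eq_zero
        intro x hx
        rw [if_neg, mul_zero]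
        rintro ⟨rfl, h2⟩
        exact ht ⟨hx, h2⟩
    rw [e]
    split_ifs
    · rw [abs_mul, abs_of_nonneg (hv1 t)]
      apply mul_le_of_le_one_right (hv1 t)
      rcases SignType.trichotomy (SignType.sign (f (un t : V θ h0 h1))) with h | h | h <;> simp [h]
    · rw [abs_zero]
      exact hv1 t
  have hnorm : ‖z‖ ≤ ε / (2 * (‖f‖ + 1)) := by
    apply V.norm_le (by positivity)
    · intro F hF
      exact (Finset.sum_le_sum fun t _ => hco t).trans (hv5 F hF.nxt2)
    · intro G hG
      have h2 : ∑ t ∈ G, |co t z| ≤ ε / (2 * (‖f‖ + 1)) :=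
        (Finset.sum_le_sum fun t _ => hco t).trans (hv5 G hG.nxt)
      have h3 : 0 ≤ ∑ t ∈ G, |co t z| := Finset.sum_nonneg fun _ _ => abs_nonneg _
      calc θ * ∑ t ∈ G, |co t z| ≤ 1 * ∑ t ∈ G, |co t z| := by gcongr
        _ ≤ _ := by rw [one_mul]; exact h2
  have hf : ε ≤ f z := by
    rw [hz, map_sum]
    simp_rw [map_smul, smul_eq_mul]
    calc ε = ∑ t ∈ s, v t * ε := by rw [← Finset.sum_mul, hv4, one_mul]
      _ ≤ _ := by
        apply Finset.sum_le_sum
        intro t ht
        rw [mul_assoc, sign_mul_self]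
        exact mul_le_mul_of_nonneg_left (hv3 t ht).1 (hv1 t)
  have hf2 : f z ≤ ‖f‖ * (ε / (2 * (‖f‖ + 1))) :=
    (le_abs_self _).trans ((f.le_opNorm z).trans (by gcongr))
  have hf3 : ‖f‖ * (ε / (2 * (‖f‖ + 1))) < ε := by
    rw [mul_div_assoc', div_lt_iff₀ (by positivity)]
    nlinarith [norm_nonneg f]
  linarith

end V

end Pool.Agent.LibA61181
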